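import Pool.Agent.Y16.AF.StmB
import Pool.Agent.Y232.AF.K0

/-!
Project AF, part 2: the derivative in `lam` of the determinant for momentum zero
(uses the explicit entries of `Pool.Agent.Y232.AF.K0`).
-/

open MeasureTheory Matrix
open scoped Matrix.Norms.Frobenius Topology

set_option autoImplicit false

namespace Pool.Agent.Y658.AF

open Pool.Agent.Y16.AF Pool.Agent.Y232.AF

noncomputable section

variable {L : ℕ}

/-- the weight of a plane -/
def wt (lam : ℝ) (κ : Fin 3 ⊕ Fin 3) : ℂ := if κ = .inl 0 then (1 + lam : ℂ) else 1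

/-- the term of a plane without background field -/
def tm (t : Fin L) (κ : Fin 3 ⊕ Fin 3) (a b : In L) : ℂ :=
  ∑ i, ∑ i', inl1 t κ i (.inr a) * inl1 t κ i' (.inr b) *
      om (al L κ * 0) (ta t κ * 0) i i' * ((starRingEnd ℂ) (lz 1 κ i) * lz 1 κ i')

lemma om_zero (x y : ℝ) (i j : Fin 4) : om (x * 0) (y * 0) i j = 1 := by
  unfold om ww cc
  split_ifs <;> simp

lemma tm_wt (lam : ℝ) (t : Fin L) (κ : Fin 3 ⊕ Fin 3) (a b : In L) :
    ∑ i, ∑ j, inl1 t κ i (.inr a) * inl1 t κ j (.inr b) *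
      (if κ = .inl 0 then (1 + lam : ℂ) else 1) * ((starRingEnd ℂ) (lz 1 κ i) * lz 1 κ j) =
    wt lam κ * tm t κ a b := by
  unfold tm wt
  rw [Finset.mul_sum]
  refine Finset.sum_congr rfl fun i _ => ?_
  rw [Finset.mul_sum]
  refine Finset.sum_congr rfl fun j _ => ?_
  rw [om_zero]
  ring

lemma tm_inl (t : Fin L) (j : Fin 3) (a b : In L) (h : j ≠ a.2) : tm t (.inl j) a b = 0 := by
  unfold tm
  rw [T_inl]
  simp [h]

lemma tm_inr (t : Fin L) (m : Fin 3) (a b : In L) : tm t (.inr m) a b = 0 := by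
  unfold tm
  rw [T_inr]
  simp

lemma tm_sum (a b : In L) : ∑ t : Fin L, ∑ κ, tm t κ a b = KK L 0 a b := by
  rw [← hS_eq]
  rfl

lemma hL0_eq (lam : ℝ) (a b : In L) : hL0 (L := L) lam 1 (.inr a) (.inr b) =
    wt lam (.inl a.2) * KK L 0 a b := by
  unfold hL0
  simp only [tm_wt]
  rw [← tm_sum, Finset.mul_sum]
  refine Finset.sum_congr rfl fun t _ => ?_
  rw [Finset.mul_sum]
  refine Finset.sum_congr rfl fun κ _ => ?_
  rcases κ with j | m
  · by_cases h : j = a.2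
    · rw [h]
    · rw [tm_inl t j a b h, mul_zero, mul_zero]
  · rw [tm_inr, mul_zero, mul_zero]

lemma mat_eq (lam : ℝ) : (Matrix.of (hL0 (L := L) lam 1)).submatrix
    (Sum.inr : Fin (L - 1) × Fin 3 → AL L) (Sum.inr : Fin (L - 1) × Fin 3 → AL L) =
    Matrix.diagonal (fun a : In L => wt lam (.inl a.2)) * Matrix.of (KK L 0) := by
  ext a b
  rw [Matrix.diagonal_mul]
  exact hL0_eq lam a b

lemma prod_wt (lam : ℝ) : ∏ a : In L, wt lam (.inl a.2) = (1 + lam : ℂ) ^ (L - 1) := by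
  rw [Fintype.prod_prod_type]
  have h : ∏ y : Fin 3, wt lam (.inl y) = (1 + lam : ℂ) := by
    rw [Fin.prod_univ_three]
    simp [wt]
  simp only [Finset.prod_const, Finset.card_univ, Fintype.card_fin]
  rw [h]

lemma det_eq (lam : ℝ) : det ((Matrix.of (hL0 (L := L) lam 1)).submatrix
    (Sum.inr : Fin (L - 1) × Fin 3 → AL L) (Sum.inr : Fin (L - 1) × Fin 3 → AL L)) =
    (1 + lam : ℂ) ^ (L - 1) * det (Matrix.of (KK L 0)) := by
  rw [mat_eq, Matrix.det_mul, Matrix.det_diagonal, prod_wt]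

theorem af_k00 : S_K00 := by
  intro L _ hL
  have h0 : det (Matrix.of (KK L 0)) ≠ 0 := by
    have h1 := congrArg det (KK_GG hL)
    rw [Matrix.det_mul, Matrix.det_one] at h1
    exact left_ne_zero_of_mul_eq_one h1
  have hfun : (fun lam : ℝ => det ((Matrix.of (hL0 (L := L) lam 1)).submatrix
      (Sum.inr : Fin (L - 1) × Fin 3 → AL L) (Sum.inr : Fin (L - 1) × Fin 3 → AL L))) =
      fun lam : ℝ => (1 + lam : ℂ) ^ (L - 1) * det (Matrix.of (KK L 0)) := by
    funext lam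
    exact det_eq lam
  rw [hfun, det_eq]
  have e0 : (1 + ((0 : ℝ) : ℂ)) ^ (L - 1) * det (Matrix.of (KK L 0)) =
      det (Matrix.of (KK L 0)) := by simp
  rw [e0]
  refine ⟨h0, ?_⟩
  have h1 : HasDerivAt (fun lam : ℝ => (1 + lam : ℂ)) 1 0 := by
    have h2 : HasDerivAt (fun lam : ℝ => (lam : ℂ)) 1 0 := by
      simpa using (hasDerivAt_id (0 : ℝ)).ofReal_comp
    exact h2.const_add 1
  have h3 := (h1.pow (L - 1)).mul_const (det (Matrix.of (KK L 0)))
  refine h3.congr_deriv ?_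
  have h4 : ((L - 1 : ℕ) : ℂ) = (L : ℂ) - 1 := by
    rw [Nat.cast_sub (by omega), Nat.cast_one]
  rw [h4]
  simp
  ring

end

end Pool.Agent.Y658.AF
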